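import Pool.Agent.W770.KP.Stm

/-! # KP: interpolation, small degree -/

set_option autoImplicit false

open scoped Classical

namespace Pool.Agent.W32.KP

open Pool.Agent.W770.KP

/-- the interpolation polynomial of `z` in the box `τ + T ^ m` -/
noncomputable def Az {F : Type} [Field F] {m : ℕ} (T : Finset F) (τ z : Fin m → F) :
    MvPolynomial (Fin m) F :=
  ∏ i, ∏ w ∈ (T.image (fun t => t + τ i)).erase (z i), (MvPolynomial.X i - MvPolynomial.C w)

lemma Az_deg {F : Type} [Field F] {m : ℕ} (T : Finset F) (τ z : Fin m → F)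
    (hz : ∀ i, z i - τ i ∈ T) : (Az T τ z).totalDegree ≤ m * (T.card - 1) := by
  unfold Az
  refine (MvPolynomial.totalDegree_finsetProd _ _).trans ?_
  calc ∑ i : Fin m, (∏ w ∈ (T.image (fun t => t + τ i)).erase (z i),
        (MvPolynomial.X i - MvPolynomial.C w : MvPolynomial (Fin m) F)).totalDegree
      ≤ ∑ _i : Fin m, (T.card - 1) := by
        refine Finset.sum_le_sum fun i _ => ?_
        refine (MvPolynomial.totalDegree_finsetProd _ _).trans ?_
        have h1 : ((T.image (fun t => t + τ i)).erase (z i)).card = T.card - 1 := by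
          rw [Finset.card_erase_of_mem, Finset.card_image_of_injective]
          · exact add_left_injective (τ i)
          · rw [Finset.mem_image]
            exact ⟨z i - τ i, hz i, sub_add_cancel _ _⟩
        calc ∑ w ∈ (T.image (fun t => t + τ i)).erase (z i),
              (MvPolynomial.X i - MvPolynomial.C w : MvPolynomial (Fin m) F).totalDegree
            ≤ ∑ w ∈ (T.image (fun t => t + τ i)).erase (z i), 1 := by
              refine Finset.sum_le_sum fun w _ => ?_
              refine (MvPolynomial.totalDegree_sub_C_le _ _).trans ?_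
              rw [MvPolynomial.totalDegree_X]
          _ = T.card - 1 := by rw [Finset.sum_const, h1, smul_eq_mul, mul_one]
    _ = m * (T.card - 1) := by simp

lemma Az_eval {F : Type} [Field F] {m : ℕ} (T : Finset F) (τ z z' : Fin m → F) :
    MvPolynomial.eval z' (Az T τ z) =
      ∏ i, ∏ w ∈ (T.image (fun t => t + τ i)).erase (z i), (z' i - w) := by
  unfold Az
  rw [map_prod]
  refine Finset.prod_congr rfl fun i _ => ?_
  rw [map_prod]
  refine Finset.prod_congr rfl fun w _ => ?_
  simp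

lemma Az_ne {F : Type} [Field F] {m : ℕ} (T : Finset F) (τ z : Fin m → F) :
    MvPolynomial.eval z (Az T τ z) ≠ 0 := by
  rw [Az_eval]
  refine Finset.prod_ne_zero_iff.2 fun i _ => Finset.prod_ne_zero_iff.2 fun w hw => ?_
  rw [sub_ne_zero]
  exact (Finset.ne_of_mem_erase hw).symm

lemma Az_zero {F : Type} [Field F] {m : ℕ} (T : Finset F) (τ z z' : Fin m → F)
    (hz' : ∀ i, z' i - τ i ∈ T) (hne : z' ≠ z) : MvPolynomial.eval z' (Az T τ z) = 0 := by
  rw [Az_eval]
  obtain ⟨i, hi⟩ : ∃ i, z' i ≠ z i := by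
    by_contra h
    push Not at h
    exact hne (funext h)
  refine Finset.prod_eq_zero (Finset.mem_univ i) (Finset.prod_eq_zero (i := z' i) ?_ (sub_self _))
  rw [Finset.mem_erase, Finset.mem_image]
  exact ⟨hi, z' i - τ i, hz' i, sub_add_cancel _ _⟩

lemma boxcount {F : Type} [Field F] [Fintype F] {m : ℕ} (T : Finset F) (z : Fin m → F) :
    ((Finset.univ : Finset (Fin m → F)).filter (fun τ => ∀ i, z i - τ i ∈ T)).card =
      T.card ^ m := by
  have h1 : (Fintype.piFinset (fun _ : Fin m => T)).card = T.card ^ m := by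
    rw [Fintype.card_piFinset]
    simp
  rw [← h1]
  refine Finset.card_bij' (fun τ _ => z - τ) (fun τ _ => z - τ) ?_ ?_ ?_ ?_
  · intro τ hτ
    rw [Finset.mem_filter] at hτ
    rw [Fintype.mem_piFinset]
    exact hτ.2
  · intro τ hτ
    rw [Fintype.mem_piFinset] at hτ
    rw [Finset.mem_filter]
    refine ⟨Finset.mem_univ _, fun i => ?_⟩
    rw [Pi.sub_apply, sub_sub_cancel]
    exact hτ i
  · intro τ _
    exact sub_sub_cancel _ _
  · intro τ _
    exact sub_sub_cancel _ _

theorem t_ILMA : S_ILMA := by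
  intro m hm F _ _ Z e he
  obtain ⟨q, hq⟩ : ∃ q, q = Fintype.card F := ⟨_, rfl⟩
  have hq0 : 0 < q := by rw [hq]; exact Fintype.card_pos
  rw [← hq] at he ⊢
  have hsq : e / m + 1 ≤ q := by
    have : e / m < q := Nat.div_lt_of_lt_mul he
    omega
  obtain ⟨T, -, hT⟩ := Finset.exists_subset_card_eq (s := (Finset.univ : Finset F))
    (n := e / m + 1) (by rw [Finset.card_univ, ← hq]; exact hsq)
  have hdc : ∑ τ : Fin m → F, (Z.filter (fun z => ∀ i, z i - τ i ∈ T)).card =
      Z.card * (e / m + 1) ^ m := by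
    simp only [Finset.card_filter]
    rw [Finset.sum_comm]
    calc ∑ z ∈ Z, ∑ τ : Fin m → F, (if ∀ i, z i - τ i ∈ T then 1 else 0)
        = ∑ z ∈ Z, (e / m + 1) ^ m := by
          refine Finset.sum_congr rfl fun z _ => ?_
          rw [← Finset.card_filter, boxcount, hT]
      _ = Z.card * (e / m + 1) ^ m := by rw [Finset.sum_const, smul_eq_mul]
  obtain ⟨τ, hτ⟩ : ∃ τ : Fin m → F, Z.card * (e / m + 1) ^ m ≤
      q ^ m * (Z.filter (fun z => ∀ i, z i - τ i ∈ T)).card := by
    by_contra hcon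
    push Not at hcon
    have hcard : (Finset.univ : Finset (Fin m → F)).card = q ^ m := by
      rw [Finset.card_univ, Fintype.card_fun, Fintype.card_fin, ← hq]
    have h1 : ∑ τ : Fin m → F, q ^ m * (Z.filter (fun z => ∀ i, z i - τ i ∈ T)).card <
        ∑ _τ : Fin m → F, Z.card * (e / m + 1) ^ m :=
      Finset.sum_lt_sum_of_nonempty Finset.univ_nonempty fun τ _ => hcon τ
    rw [← Finset.mul_sum, hdc, Finset.sum_const, hcard, smul_eq_mul] at h1
    exact lt_irrefl _ h1
  obtain ⟨Z', hZ'⟩ : ∃ Z', Z' = Z.filter (fun z => ∀ i, z i - τ i ∈ T) := ⟨_, rfl⟩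
  rw [← hZ'] at hτ
  have hm0 : ∀ z, z ∈ Z' → z ∈ Z ∧ ∀ i, z i - τ i ∈ T := by
    intro z hz
    rw [hZ', Finset.mem_filter] at hz
    exact hz
  have hmem : ∀ x : Z', ∀ i, (x : Fin m → F) i - τ i ∈ T := fun x => (hm0 x x.2).2
  have hmemZ : ∀ x : Z', (x : Fin m → F) ∈ Z := fun x => (hm0 x x.2).1
  refine ⟨Z'.card, fun s => Az T τ (Z'.equivFin.symm s : Z'), fun s => ?_, ?_, ?_⟩
  · refine (Az_deg T τ _ (hmem _)).trans ?_
    rw [hT, Nat.add_sub_cancel]
    exact Nat.mul_div_le e m
  · have hqr : (0 : ℝ) < (q : ℝ) := by exact_mod_cast hq0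
    have hmr : (0 : ℝ) < (m : ℝ) := by exact_mod_cast hm
    have h1 : (Z.card : ℝ) * (((e / m + 1 : ℕ) : ℝ)) ^ m ≤ (q : ℝ) ^ m * (Z'.card : ℝ) := by
      exact_mod_cast hτ
    have h2 : ((e : ℝ) + 1) / ((m : ℝ) * (q : ℝ)) ≤ ((e / m + 1 : ℕ) : ℝ) / q := by
      rw [div_le_div_iff₀ (by positivity) hqr]
      have h3 : e + 1 ≤ m * (e / m + 1) := by
        have := Nat.lt_mul_div_succ e hm
        omega
      have h4 : (e : ℝ) + 1 ≤ m * ((e / m + 1 : ℕ) : ℝ) := by exact_mod_cast h3
      calc ((e : ℝ) + 1) * q ≤ (m * ((e / m + 1 : ℕ) : ℝ)) * q :=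
            mul_le_mul_of_nonneg_right h4 hqr.le
        _ = ((e / m + 1 : ℕ) : ℝ) * (m * q) := by ring
    calc (Z.card : ℝ) * (((e : ℝ) + 1) / ((m : ℝ) * (q : ℝ))) ^ m
        ≤ (Z.card : ℝ) * (((e / m + 1 : ℕ) : ℝ) / q) ^ m :=
          mul_le_mul_of_nonneg_left (pow_le_pow_left₀ (by positivity) h2 m) (Nat.cast_nonneg _)
      _ = ((Z.card : ℝ) * (((e / m + 1 : ℕ) : ℝ)) ^ m) / (q : ℝ) ^ m := by
          rw [div_pow]
          ring
      _ ≤ (Z'.card : ℝ) := by
          rw [div_le_iff₀ (by positivity)]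
          linarith
  · intro c hc
    funext s
    have h1 := hc _ (hmemZ (Z'.equivFin.symm s))
    unfold lc at h1
    rw [map_sum, Finset.sum_eq_single s] at h1
    · rw [map_mul, MvPolynomial.eval_C] at h1
      rcases mul_eq_zero.1 h1 with h | h
      · exact h
      · exact absurd h (Az_ne _ _ _)
    · intro s' _ hs'
      rw [map_mul, Az_zero T τ _ _ (hmem _), mul_zero]
      intro h
      exact hs' (Z'.equivFin.symm.injective (Subtype.ext h)).symm
    · intro h
      exact absurd (Finset.mem_univ _) h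

end Pool.Agent.W32.KP
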